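import Pool.Agent.Work.MP_0863b8_nt.Bd.B05
import Pool.Agent.Work.MP_0863b8_nt.Bd.B09
import Pool.Agent.Work.MP_0863b8_nt.Bd.B10

/-!
MP_0863b8_nt, full answer: everything together.
-/

set_option autoImplicit false

namespace Pool.Agent.MP_0863b8.FIN

theorem asmStmt : AsmStmt := asm (pairA CL.clsK_holds CL.divCL K.ovK K.killK K.sumK) K.liftK

theorem keptStmt : KeptStmt := kept asmStmt R.recStmt K.multK K.firstK

/-- **The inhomogeneous Duffin-Schaeffer theorem** -/
theorem fullStmt : FullStmt := full keptStmt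

end Pool.Agent.MP_0863b8.FIN
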